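import Pool.Agent.H90.RS.Main

set_option autoImplicit false

open Ne729cbcb

namespace Pool.Agent.H90.RS

lemma int_circle {ρ : ℝ} (hρ : 0 < ρ) : ∫ t in (0:ℝ)..ρ, Real.sqrt (ρ ^ 2 - t ^ 2) = Real.pi * ρ ^ 2 / 4 := by
  have hcont : Continuous (fun t : ℝ => Real.sqrt (ρ ^ 2 - t ^ 2)) := by fun_prop
  have h1 : ∫ u in (-1:ℝ)..1, Real.sqrt (ρ ^ 2 - (ρ * u) ^ 2) = ρ * (Real.pi / 2) := by
    rw [← integral_sqrt_one_sub_sq, ← intervalIntegral.integral_const_mul]
    apply intervalIntegral.integral_congr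
    intro u _
    show Real.sqrt (ρ ^ 2 - (ρ * u) ^ 2) = ρ * Real.sqrt (1 - u ^ 2)
    rw [show ρ ^ 2 - (ρ * u) ^ 2 = ρ ^ 2 * (1 - u ^ 2) by ring,
      Real.sqrt_mul (sq_nonneg ρ), Real.sqrt_sq hρ.le]
  have h2 := intervalIntegral.integral_comp_mul_left (a := -1) (b := 1)
    (fun t : ℝ => Real.sqrt (ρ ^ 2 - t ^ 2)) hρ.ne'
  rw [h1] at h2
  have h3 : ∫ t in (-ρ)..(0:ℝ), Real.sqrt (ρ ^ 2 - t ^ 2)
      = ∫ t in (0:ℝ)..ρ, Real.sqrt (ρ ^ 2 - t ^ 2) := by
    have := intervalIntegral.integral_comp_neg (a := 0) (b := ρ)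
      (fun t : ℝ => Real.sqrt (ρ ^ 2 - t ^ 2))
    rw [neg_zero] at this
    rw [← this]
    apply intervalIntegral.integral_congr
    intro u _
    show Real.sqrt (ρ ^ 2 - (-u) ^ 2) = _
    rw [neg_sq]
  have h4 := intervalIntegral.integral_add_adjacent_intervals
    (hcont.intervalIntegrable (μ := MeasureTheory.volume) (-ρ) 0)
    (hcont.intervalIntegrable (μ := MeasureTheory.volume) 0 ρ)
  rw [h3] at h4
  rw [mul_neg, mul_one, ← h4, smul_eq_mul] at h2
  field_simp at h2
  nlinarith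

lemma sum_circle {ρ : ℝ} (hρ : 0 < ρ) (N : ℕ) :
    ∑ i ∈ Finset.range N, Real.sqrt (ρ ^ 2 - ((i : ℝ) + 3 / 2) ^ 2) ≤ Real.pi * ρ ^ 2 / 4 := by
  have hcont : Continuous (fun t : ℝ => Real.sqrt (ρ ^ 2 - t ^ 2)) := by fun_prop
  have hanti : AntitoneOn (fun t : ℝ => Real.sqrt (ρ ^ 2 - t ^ 2))
      (Set.Icc (1 / 2 : ℝ) (1 / 2 + (N : ℕ))) := by
    intro s hs t ht hst
    apply Real.sqrt_le_sqrt
    have : (0 : ℝ) ≤ s := by linarith [hs.1]
    nlinarith
  have h1 := hanti.sum_le_integral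
  have h2 : ∑ i ∈ Finset.range N, Real.sqrt (ρ ^ 2 - ((i : ℝ) + 3 / 2) ^ 2)
      = ∑ i ∈ Finset.range N, Real.sqrt (ρ ^ 2 - (1 / 2 + ((i + 1 : ℕ) : ℝ)) ^ 2) := by
    apply Finset.sum_congr rfl
    intro i _
    push_cast
    congr 2; ring
  rw [h2]
  refine le_trans h1 ?_
  rw [← int_circle hρ]
  set M : ℝ := max (1 / 2 + (N : ℝ)) ρ with hM
  have hN0 : (0 : ℝ) ≤ N := Nat.cast_nonneg _
  have h3 : ∫ t in (1 / 2 : ℝ)..(1 / 2 + (N : ℝ)), Real.sqrt (ρ ^ 2 - t ^ 2)
      ≤ ∫ t in (0 : ℝ)..M, Real.sqrt (ρ ^ 2 - t ^ 2) := by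
    apply intervalIntegral.integral_mono_interval (by norm_num) (by linarith) (le_max_left _ _)
    · exact Filter.Eventually.of_forall (fun t => Real.sqrt_nonneg _)
    · exact hcont.intervalIntegrable _ _
  refine le_trans h3 ?_
  have h4 := intervalIntegral.integral_add_adjacent_intervals
    (hcont.intervalIntegrable (μ := MeasureTheory.volume) 0 ρ)
    (hcont.intervalIntegrable (μ := MeasureTheory.volume) ρ M)
  have h5 : ∫ t in ρ..M, Real.sqrt (ρ ^ 2 - t ^ 2) = 0 := by
    have : ∫ t in ρ..M, Real.sqrt (ρ ^ 2 - t ^ 2) = ∫ t in ρ..M, (0 : ℝ) := by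
      apply intervalIntegral.integral_congr
      intro t ht
      rw [Set.uIcc_of_le (le_max_right _ _)] at ht
      show Real.sqrt (ρ ^ 2 - t ^ 2) = 0
      apply Real.sqrt_eq_zero_of_nonpos
      nlinarith [ht.1]
    rw [this]; simp
  rw [h5, add_zero] at h4
  rw [h4]

/-- a set of naturals with `n > 0` elements has an element at least `n - 1` -/
lemma exists_big (s : Finset ℕ) (h : s.Nonempty) : ∃ j ∈ s, s.card ≤ j + 1 := by
  by_contra hcon
  push Not at hcon
  have hsub : s ⊆ Finset.range (s.card - 1) := by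
    intro j hj
    rw [Finset.mem_range]
    have := hcon j hj
    omega
  have h1 := Finset.card_le_card hsub
  rw [Finset.card_range] at h1
  have h2 := Finset.card_pos.2 h
  omega

lemma lowerR (k : ℕ) : (k : ℝ) ^ 2 + 3 * k ≤ 4 * rosen k := by
  have := lower k
  have h : ((k * k + 3 * k : ℕ) : ℝ) ≤ ((4 * rosen k : ℕ) : ℝ) := by exact_mod_cast this
  push_cast at h
  nlinarith

lemma circ (x : ℕ) : (solutionCount x : ℝ) ≤ Real.pi / 2 * x + Real.sqrt x + 3 := by
  set S := ((Finset.range (x + 1) ×ˢ Finset.range (x + 1)).filter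
    fun p : ℕ × ℕ => p.1 ≤ p.2 ∧ 1 ≤ p.2 ∧ rosen p.1 + rosen p.2 ≤ x) with hS
  set O := ((Finset.range (x + 1) ×ˢ Finset.range (x + 1)).filter
    fun p : ℕ × ℕ => rosen p.1 + rosen p.2 ≤ x) with hO
  set Dg := (Finset.range (x + 1)).filter (fun i => 2 * rosen i ≤ x) with hDg
  have hcard : solutionCount x = S.card := rfl
  have hSO : S ∪ S.image Prod.swap ⊆ O := by
    intro p hp
    rw [Finset.mem_union, Finset.mem_image] at hp
    rcases hp with hp | ⟨q, hq, rfl⟩
    · rw [hS, Finset.mem_filter] at hp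
      rw [hO, Finset.mem_filter]
      exact ⟨hp.1, hp.2.2.2⟩
    · rw [hS, Finset.mem_filter, Finset.mem_product] at hq
      rw [hO, Finset.mem_filter, Finset.mem_product]
      refine ⟨⟨hq.1.2, hq.1.1⟩, ?_⟩
      show rosen q.2 + rosen q.1 ≤ x
      have := hq.2.2.2
      omega
  have hSD : (S ∩ S.image Prod.swap).card ≤ Dg.card := by
    apply Finset.card_le_card_of_injOn Prod.fst
    · intro p hp
      have hp' : p ∈ S ∩ S.image Prod.swap := hp
      rw [Finset.mem_inter, Finset.mem_image] at hp'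
      obtain ⟨h1, q, hq, hqp⟩ := hp'
      rw [hS, Finset.mem_filter, Finset.mem_product] at h1 hq
      have e : p.1 = p.2 := by
        rw [← hqp] at h1 ⊢
        have a1 := h1.2.1
        have a2 := hq.2.1
        show q.2 = q.1
        have a3 : q.2 ≤ q.1 := a1
        omega
      show p.1 ∈ Dg
      rw [hDg, Finset.mem_filter]
      refine ⟨h1.1.1, ?_⟩
      have := h1.2.2.2
      rw [← e] at this
      omega
    · intro p hp q hq h
      have aux : ∀ p ∈ S ∩ S.image Prod.swap, p.1 = p.2 := by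
        intro p hp'
        rw [Finset.mem_inter, Finset.mem_image] at hp'
        obtain ⟨h1, q, hq, hqp⟩ := hp'
        rw [hS, Finset.mem_filter, Finset.mem_product] at h1 hq
        rw [← hqp] at h1 ⊢
        have a1 := h1.2.1
        have a2 := hq.2.1
        show q.2 = q.1
        have a3 : q.2 ≤ q.1 := a1
        omega
      have e1 := aux p hp
      have e2 := aux q hq
      exact Prod.ext h (by rw [← e1, ← e2]; exact h)
  have hswap : (S.image Prod.swap).card = S.card :=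
    Finset.card_image_of_injective _ Prod.swap_injective
  have h2S : 2 * S.card ≤ O.card + Dg.card := by
    have e1 := Finset.card_union_add_card_inter S (S.image Prod.swap)
    have e2 := Finset.card_le_card hSO
    omega
  -- the ordered pairs
  set ρ : ℝ := Real.sqrt (4 * x + 9 / 2) with hρdef
  have hρ2 : ρ ^ 2 = 4 * x + 9 / 2 := Real.sq_sqrt (by positivity)
  have hρ : 0 < ρ := Real.sqrt_pos.2 (by positivity)
  have hOsum : O.card = ∑ i ∈ Finset.range (x + 1),
      ((Finset.range (x + 1)).filter (fun j => rosen i + rosen j ≤ x)).card := by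
    rw [hO, Finset.card_filter, Finset.sum_product]
    apply Finset.sum_congr rfl
    intro i _
    rw [Finset.card_filter]
  have hrow : ∀ i, (((Finset.range (x + 1)).filter (fun j => rosen i + rosen j ≤ x)).card : ℝ)
      ≤ Real.sqrt (ρ ^ 2 - ((i : ℝ) + 3 / 2) ^ 2) := by
    intro i
    set s := (Finset.range (x + 1)).filter (fun j => rosen i + rosen j ≤ x) with hs
    rcases Finset.eq_empty_or_nonempty s with h0 | hne
    · rw [h0]; simpa using Real.sqrt_nonneg _
    · obtain ⟨j, hj, hjc⟩ := exists_big s hne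
      rw [hs, Finset.mem_filter] at hj
      apply Real.le_sqrt_of_sq_le
      have h1 : (s.card : ℝ) ≤ j + 1 := by exact_mod_cast hjc
      have h2 : (rosen i : ℝ) + rosen j ≤ x := by exact_mod_cast hj.2
      have h3 := lowerR i
      have h4 := lowerR j
      have h5 : (s.card : ℝ) ^ 2 ≤ ((j : ℝ) + 1) ^ 2 := by
        apply pow_le_pow_left₀ (Nat.cast_nonneg _) h1
      have h6 : (0 : ℝ) ≤ j := Nat.cast_nonneg _
      rw [hρ2]
      nlinarith
  have hOle : (O.card : ℝ) ≤ Real.pi * ρ ^ 2 / 4 := by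
    rw [hOsum]
    push_cast
    exact le_trans (Finset.sum_le_sum (fun i _ => hrow i)) (sum_circle hρ (x + 1))
  have hDle : (Dg.card : ℝ) ≤ 2 * Real.sqrt x + 1 := by
    rcases Finset.eq_empty_or_nonempty Dg with h0 | hne
    · rw [h0]; simp; positivity
    · obtain ⟨j, hj, hjc⟩ := exists_big Dg hne
      rw [hDg, Finset.mem_filter] at hj
      have h1 : (Dg.card : ℝ) ≤ j + 1 := by exact_mod_cast hjc
      have h2 : 2 * (rosen j : ℝ) ≤ x := by exact_mod_cast hj.2
      have h4 := lowerR j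
      have h6 : (0 : ℝ) ≤ j := Nat.cast_nonneg _
      have h7 : (j : ℝ) ≤ 2 * Real.sqrt x := by
        have : (j : ℝ) ≤ Real.sqrt (4 * x) := by
          apply Real.le_sqrt_of_sq_le
          have : (0 : ℝ) ≤ x := Nat.cast_nonneg _
          nlinarith
        rw [Real.sqrt_mul (by norm_num), show (4 : ℝ) = 2 ^ 2 by norm_num,
          Real.sqrt_sq (by norm_num)] at this
        exact this
      linarith
  have h2S' : 2 * (S.card : ℝ) ≤ O.card + Dg.card := by exact_mod_cast h2S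
  rw [hcard]
  rw [hρ2] at hOle
  have hpi := Real.pi_lt_d2
  nlinarith

end Pool.Agent.H90.RS
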