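import Mathlib
import Pool.Prelude.Def_F_9cf4a76a

set_option autoImplicit false

open Ne729cbcb

namespace Pool.Agent.H90.RS

lemma aux_succ (m i : ℕ) (h : i ≠ m + 2) : rosenAux (m + 1) i = rosenAux m i := by
  show (if i = m + 2 then _ else rosenAux m i) = _
  rw [if_neg h]

lemma ra (m : ℕ) : ∀ i, i ≤ m + 1 → rosenAux m i = rosen i := by
  induction m with
  | zero =>
    intro i hi
    interval_cases i
    · rfl
    · unfold rosen; rw [aux_succ 0 1 (by norm_num)]
  | succ m ih =>
    intro i hi
    by_cases h : i = m + 2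
    · subst h
      unfold rosen
      rw [aux_succ (m + 1) (m + 2) (by omega)]
    · rw [aux_succ m i h, ih i (by omega)]

lemma rosen_zero : rosen 0 = 0 := rfl
lemma rosen_one : rosen 1 = 1 := by rw [← ra 0 1 (by norm_num)]; rfl

lemma pairCount_congr {a b : ℕ → ℕ} {m n : ℕ} (h : ∀ i ≤ m, a i = b i) :
    pairCount a m n = pairCount b m n := by
  unfold pairCount
  congr 1
  apply Finset.filter_congr
  rintro ⟨i, j⟩ hp
  simp only [Finset.mem_product, Finset.mem_range] at hp
  rw [h i (by omega), h j (by omega)]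

lemma rosen_succ (k : ℕ) (hk : 1 ≤ k) :
    rosen (k + 1) = sInf {n : ℕ | pairCount rosen k n < n} := by
  obtain ⟨m, rfl⟩ : ∃ m, k = m + 1 := ⟨k - 1, by omega⟩
  rw [← ra (m + 1) (m + 1 + 1) (by omega)]
  show (if m + 1 + 1 = m + 2 then sInf {n : ℕ | pairCount (rosenAux m) (m + 1) n < n} else _) = _
  rw [if_pos rfl]
  congr 1
  ext n
  rw [Set.mem_ofPred_eq, Set.mem_ofPred_eq, pairCount_congr (fun i hi => ra m i hi)]

/-- the count with the first `k+1` terms -/
noncomputable def pc (k n : ℕ) : ℕ := pairCount rosen k n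

/-- the pairs with larger index `j` -/
noncomputable def cc (j n : ℕ) : ℕ :=
  ((Finset.range (j + 1)).filter (fun i => rosen i + rosen j ≤ n)).card

lemma pc_zero (n : ℕ) : pc 0 n = 0 := by
  unfold pc pairCount
  rw [Finset.card_eq_zero, Finset.filter_eq_empty_iff]
  rintro ⟨i, j⟩ hp
  simp only [Finset.mem_product, Finset.mem_range] at hp
  omega

lemma pc_succ (k n : ℕ) : pc (k + 1) n = pc k n + cc (k + 1) n := by
  unfold pc pairCount cc
  rw [← Finset.card_image_of_injective (s := (Finset.range (k + 1 + 1)).filter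
    (fun i => rosen i + rosen (k + 1) ≤ n)) (f := fun i => (i, k + 1))
    (by intro a b h; simpa using h), ← Finset.card_union_of_disjoint]
  · congr 1
    ext ⟨i, j⟩
    simp only [Finset.mem_filter, Finset.mem_product, Finset.mem_range, Finset.mem_union,
      Finset.mem_image, Prod.mk.injEq]
    constructor
    · rintro ⟨⟨h1, h2⟩, h3, h4, h5⟩
      by_cases hj : j = k + 1
      · right; subst hj; exact ⟨i, ⟨by omega, h5⟩, rfl, rfl⟩
      · left; exact ⟨⟨by omega, by omega⟩, h3, h4, h5⟩
    · rintro (⟨⟨h1, h2⟩, h3, h4, h5⟩ | ⟨i', ⟨h1, h2⟩, h3, h4⟩)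
      · exact ⟨⟨by omega, by omega⟩, h3, h4, h5⟩
      · subst h3; subst h4; exact ⟨⟨by omega, by omega⟩, by omega, by omega, h2⟩
  · rw [Finset.disjoint_left]
    rintro ⟨i, j⟩ h1 h2
    simp only [Finset.mem_filter, Finset.mem_product, Finset.mem_range, Finset.mem_image,
      Prod.mk.injEq] at h1 h2
    obtain ⟨i', _, _, h3⟩ := h2
    omega

lemma cc_le (j n : ℕ) : cc j n ≤ j + 1 := by
  unfold cc
  exact le_trans (Finset.card_filter_le _ _) (by simp)

lemma cc_mono (j : ℕ) {n m : ℕ} (h : n ≤ m) : cc j n ≤ cc j m := by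
  unfold cc
  apply Finset.card_le_card
  intro i hi
  rw [Finset.mem_filter] at hi ⊢
  exact ⟨hi.1, by omega⟩

lemma pc_mono (k : ℕ) {n m : ℕ} (h : n ≤ m) : pc k n ≤ pc k m := by
  induction k with
  | zero => rw [pc_zero, pc_zero]
  | succ k ih => rw [pc_succ, pc_succ]; exact add_le_add ih (cc_mono _ h)

lemma pc_bound (k n : ℕ) : 2 * pc k n + 2 ≤ (k + 1) * (k + 2) := by
  induction k with
  | zero => rw [pc_zero]
  | succ k ih =>
    rw [pc_succ]
    have := cc_le (k + 1) n
    nlinarith

lemma F2 (k : ℕ) (hk : 1 ≤ k) : pc k (rosen (k + 1)) < rosen (k + 1) := by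
  have : ({n : ℕ | pairCount rosen k n < n}).Nonempty := by
    refine ⟨(k + 1) * (k + 2), ?_⟩
    show pc k _ < _
    have := pc_bound k ((k + 1) * (k + 2))
    omega
  have h := Nat.sInf_mem this
  rw [← rosen_succ k hk] at h
  exact h

lemma F1 (k n : ℕ) (h : n < rosen (k + 1)) : n ≤ pc k n := by
  rcases Nat.eq_zero_or_pos k with rfl | hk
  · rw [zero_add, rosen_one] at h; omega
  · rw [rosen_succ k hk] at h
    have := Nat.notMem_of_lt_sInf h
    by_contra hcon
    exact this (by show pc k n < n; omega)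

lemma upper (k : ℕ) : 2 * rosen k ≤ k * (k + 1) := by
  rcases k with _ | _ | k
  · rw [rosen_zero]
  · rw [zero_add, rosen_one]
  · rw [rosen_succ (k + 1) (by omega)]
    have hev : Even ((k + 1 + 1) * (k + 1 + 2)) := Nat.even_mul_succ_self (k + 1 + 1)
    obtain ⟨t, ht⟩ := hev
    have h1 : sInf {n : ℕ | pairCount rosen (k + 1) n < n} ≤ t := by
      apply Nat.sInf_le
      show pc (k + 1) t < t
      have := pc_bound (k + 1) t
      omega
    have h2 : (k + 1 + 1) * (k + 1 + 1 + 1) = t + t := ht
    omega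

lemma cc_pos {j n : ℕ} (h : rosen j ≤ n) : 1 ≤ cc j n := by
  unfold cc
  apply Finset.card_pos.2
  refine ⟨0, ?_⟩
  rw [Finset.mem_filter, rosen_zero]
  exact ⟨by simp, by omega⟩

/-- lower half of `R(a_k) = a_k` -/
lemma ge_self (k : ℕ) : rosen k ≤ pc k (rosen k) := by
  rcases k with _ | k
  · rw [rosen_zero]; exact Nat.zero_le _
  · rw [pc_succ]
    have h1 := cc_pos (le_refl (rosen (k + 1)))
    rcases Nat.eq_zero_or_pos (rosen (k + 1)) with h0 | h0
    · omega
    · have h2 := F1 k (rosen (k + 1) - 1) (by omega)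
      have h3 := pc_mono k (Nat.sub_le (rosen (k + 1)) 1)
      omega

lemma lt_succ (k : ℕ) : rosen k < rosen (k + 1) := by
  rcases k with _ | k
  · rw [rosen_zero, zero_add, rosen_one]; norm_num
  · by_contra hcon
    push Not at hcon
    have h1 := F2 (k + 1) (by omega)
    rcases lt_or_eq_of_le hcon with h | h
    · have h2 := F1 k _ h
      rw [pc_succ] at h1
      omega
    · have h2 := ge_self (k + 1)
      rw [← h] at h2
      omega

lemma smono : StrictMono rosen := strictMono_nat_of_lt_succ lt_succ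

lemma cc_self (k : ℕ) : cc k (rosen k) = 1 := by
  unfold cc
  rw [Finset.card_eq_one]
  refine ⟨0, ?_⟩
  ext i
  simp only [Finset.mem_filter, Finset.mem_range, Finset.mem_singleton]
  constructor
  · rintro ⟨h1, h2⟩
    have h3 : rosen i = 0 := by omega
    by_contra hi
    have := smono (Nat.pos_of_ne_zero hi)
    rw [rosen_zero] at this
    omega
  · rintro rfl
    rw [rosen_zero]; exact ⟨by omega, by omega⟩

/-- `R(a_k) = a_k` -/
lemma self (k : ℕ) : pc k (rosen k) = rosen k := by
  apply le_antisymm _ (ge_self k)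
  rcases k with _ | _ | k
  · rw [pc_zero]; exact Nat.zero_le _
  · rw [pc_succ, pc_zero]
    have h1 := cc_self (0 + 1)
    have h2 : rosen (0 + 1) = 1 := rosen_one
    rw [h2] at h1 ⊢
    omega
  · rw [pc_succ, cc_self]
    have := F2 (k + 1) (by omega)
    omega

lemma cc_lower {j m n : ℕ} (hm : m ≤ j) (h : rosen m + rosen j ≤ n) : m + 1 ≤ cc j n := by
  unfold cc
  have : Finset.range (m + 1) ⊆ (Finset.range (j + 1)).filter (fun i => rosen i + rosen j ≤ n) := by
    intro i hi
    rw [Finset.mem_range] at hi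
    rw [Finset.mem_filter, Finset.mem_range]
    have := smono.monotone (show i ≤ m by omega)
    exact ⟨by omega, by omega⟩
  have h2 := Finset.card_le_card this
  rwa [Finset.card_range] at h2

/-- the window induction -/
lemma window (k : ℕ) : ∀ m, 2 * m ≤ k + 2 → m ≤ k →
    2 * pc (k - m) (rosen k) + m * (m + 1) ≤ 2 * pc k (rosen k) := by
  intro m
  induction m with
  | zero => intro _ _; simp
  | succ m ih =>
    intro h1 h2
    have ih' := ih (by omega) (by omega)
    have hself := self k
    -- `a_k - a_{k-m} ≥ m(m+1)/2 ≥ a_m`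
    have h3 : 2 * rosen (k - m) + m * (m + 1) ≤ 2 * rosen k := by
      have e1 := self (k - m)
      have e2 := pc_mono (k - m) (smono.monotone (Nat.sub_le k m))
      omega
    have h4 := upper m
    have h5 : m + 1 ≤ cc (k - m) (rosen k) := cc_lower (by omega) (by omega)
    obtain ⟨t, ht⟩ : ∃ t, k - m = t + 1 := ⟨k - m - 1, by omega⟩
    have h6 : k - (m + 1) = t := by omega
    rw [ht, pc_succ, ← ht] at ih'
    rw [h6]
    have h7 : (m + 1) * (m + 1 + 1) = m * (m + 1) + 2 * (m + 1) := by ring
    omega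

lemma full {j n : ℕ} (h : 2 * rosen j ≤ n) : 2 * pc j n + 2 = (j + 1) * (j + 2) := by
  induction j with
  | zero => rw [pc_zero]
  | succ j ih =>
    have h1 := lt_succ j
    have h2 := ih (by omega)
    have h3 : cc (j + 1) n = j + 2 := by
      apply le_antisymm (cc_le (j + 1) n)
      exact cc_lower le_rfl (by omega)
    rw [pc_succ, h3]
    nlinarith

/-- `a_k ≥ h² + 2h` for `k = 2h`, `a_k ≥ h² + 3h + 1` for `k = 2h + 1` -/
lemma lower_even (h : ℕ) : h * h + 2 * h ≤ rosen (2 * h) := by
  rcases h with _ | h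
  · simp
  · -- k = 2(h+1), m = h+2 if possible
    have w := window (2 * (h + 1)) (h + 2) (by omega) (by omega)
    rw [self] at w
    have hk : 2 * (h + 1) - (h + 2) = h := by omega
    rw [hk] at w
    have h3 : 2 * rosen h + (h + 2) * (h + 2 + 1) ≤ 2 * rosen (2 * (h + 1)) := by
      have e1 := self h
      have e2 := pc_mono h (smono.monotone (show h ≤ 2 * (h + 1) by omega))
      omega
    have h4 := upper h
    have h5 := full (j := h) (n := rosen (2 * (h + 1))) (by nlinarith)
    nlinarith

lemma lower_odd (h : ℕ) : h * h + 3 * h + 1 ≤ rosen (2 * h + 1) := by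
  have w := window (2 * h + 1) (h + 1) (by omega) (by omega)
  rw [self] at w
  have hk : 2 * h + 1 - (h + 1) = h := by omega
  rw [hk] at w
  have h3 : 2 * rosen h + (h + 1) * (h + 1 + 1) ≤ 2 * rosen (2 * h + 1) := by
    have e1 := self h
    have e2 := pc_mono h (smono.monotone (show h ≤ 2 * h + 1 by omega))
    omega
  have h4 := upper h
  have h5 := full (j := h) (n := rosen (2 * h + 1)) (by nlinarith)
  nlinarith

lemma lower (k : ℕ) : k * k + 3 * k ≤ 4 * rosen k := by
  rcases Nat.even_or_odd' k with ⟨h, rfl | rfl⟩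
  · have := lower_even h; nlinarith
  · have := lower_odd h; nlinarith

lemma ratio (k : ℕ) (hk : 2 ≤ k) : rosen (k + 1) ≤ 2 * rosen k := by
  have h1 := upper (k + 1)
  rcases Nat.even_or_odd' k with ⟨h, rfl | rfl⟩
  · have := lower_even h
    nlinarith
  · have := lower_odd h
    nlinarith

lemma stable {k n : ℕ} (h : n < rosen (k + 1)) : ∀ m, k ≤ m → pc m n = pc k n := by
  intro m hm
  induction m, hm using Nat.le_induction with
  | base => rfl
  | succ m hm ih =>
    rw [pc_succ, ih]
    have : cc (m + 1) n = 0 := by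
      unfold cc
      rw [Finset.card_eq_zero, Finset.filter_eq_empty_iff]
      intro i _
      have := smono.monotone (show k + 1 ≤ m + 1 by omega)
      omega
    rw [this, add_zero]

lemma main (x : ℕ) : x ≤ solutionCount x ∧ solutionCount x ≤ 2 * x := by
  have hx : x ≤ rosen x := smono.id_le x
  have hx1 : x < rosen (x + 1) := lt_of_le_of_lt hx (lt_succ x)
  -- the index `k` with `a_k ≤ x < a_{k+1}`
  obtain ⟨k, hk1, hk2⟩ : ∃ k, rosen k ≤ x ∧ x < rosen (k + 1) := by
    have hex : ∃ k, x < rosen (k + 1) := ⟨x, hx1⟩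
    refine ⟨Nat.find hex, ?_, Nat.find_spec hex⟩
    rcases Nat.eq_zero_or_pos (Nat.find hex) with h0 | h0
    · rw [h0, rosen_zero]; exact Nat.zero_le _
    · have := Nat.find_min hex (m := Nat.find hex - 1) (by omega)
      rw [Nat.sub_add_cancel h0] at this
      omega
  have hkx : k ≤ x := le_trans (smono.id_le k) hk1
  have hR : solutionCount x = pc k x := stable hk2 x hkx
  rw [hR]
  refine ⟨F1 k x hk2, ?_⟩
  rcases Nat.lt_or_ge k 2 with hk | hk
  · -- `k = 0` or `k = 1`
    interval_cases k
    · rw [pc_zero]; exact Nat.zero_le _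
    · have := pc_bound 1 x
      rw [rosen_one] at hk1
      omega
  · have h1 : pc k x ≤ rosen (k + 1) := by
      calc pc k x ≤ pc k (rosen (k + 1)) := pc_mono k hk2.le
        _ ≤ _ := (F2 k (by omega)).le
    have h2 := ratio k hk
    omega

end Pool.Agent.H90.RS
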